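import Pool.Agent.H403R4.Main

/-!
# (-1)-curves on blow-ups of `ℙⁿ` at `h` general points: finiteness

Let `n ≥ 3` and `h ≥ 1`, and let `X` be the blow-up of `ℙⁿ` at `h` general points.

* `X` contains infinitely many (-1)-curves: the lines in an exceptional divisor have the normal
  bundle `𝒪(-1) ⊕ 𝒪(1)^{n-2}` and are (-1)-curves of size `1`.
* If the curves in the exceptional divisors are disregarded, then there are only finitely many
  (-1)-curves in `X` if and only if `h ≤ 2`.  For `h ≤ 2`, the only one is the strict transform of
  the line through the two points (if `h = 2`).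
* There are only finitely many classes of (-1)-curves in `X` if and only if `h ≤ 2`.  For `h ≥ 3`
  the plane curves of class `d h - (d - 1) e₁ - e₂ - e₃`, `d ≥ 2`, have the normal bundle
  `𝒪(2 d - 3) ⊕ 𝒪(-1)^{n-2}` and are (-1)-curves of size `n - 2`.
-/

namespace Pool.Agent.Results.MP_a25314_ag.FiniteIffAtMostTwo

open Pool.Agent.H403R3 Pool.Agent.H403R4

/-- For `n ≥ 3`, `h ≥ 1` and general points `p 1, …, p h` of `ℙⁿ`, the blow-up `X` of `ℙⁿ` at these
points contains infinitely many (-1)-curves; those of them that are not contained in an exceptional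
divisor are finite in number if and only if `h ≤ 2`; and the set of the classes of all (-1)-curves
is finite if and only if `h ≤ 2`. -/
theorem result (n h : ℕ) (hn : 3 ≤ n) (hh : 1 ≤ h) :
    Generally n h fun p => (∀ i, p i ≠ 0) ∧ Distinct p ∧ (minusOneCurves p).Infinite ∧
      ((minusOneCurvesOff p).Finite ↔ h ≤ 2) ∧ ((minusOneClasses p).Finite ↔ h ≤ 2) :=
  main₀ n h hn hh

end Pool.Agent.Results.MP_a25314_ag.FiniteIffAtMostTwo
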